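import Pool.Agent.MWE.Stmts

/-!
# Squad MWE (MP_23468a_al), row FPR: projections of the big words
-/

set_option autoImplicit false

namespace Pool.Agent.MWE.H89

open Pool.Agent.Helper14_MV Pool.Agent.Helper2_MV Pool.Agent.MVD Pool.Agent.MWE

theorem pr_sep (i j k r : ℕ) : pr i j k (3 * r + 2) = [3 * r + 2] := by
  unfold pr
  rw [if_neg (by omega), if_neg (by omega)]

theorem bw_flatMap (R : List ℕ) (B : ℕ → List ℕ) (i j k : ℕ) :
    (Bw R B).flatMap (pr i j k) = Bw R (fun r => (B r).flatMap (pr i j k)) := by
  unfold Bw
  rw [List.flatMap_assoc]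
  congr 1
  funext r
  rw [List.flatMap_append, List.flatMap_singleton, pr_sep]

theorem bw_congr {R : List ℕ} {B B' : ℕ → List ℕ} (h : ∀ r ∈ R, B r = B' r) : Bw R B = Bw R B' := by
  unfold Bw
  rw [List.flatMap_def, List.flatMap_def]
  congr 1
  refine List.map_congr_left fun r hr => ?_
  rw [h r hr]

theorem fm_congr {l : List ℕ} {f g : ℕ → List ℕ} (h : ∀ a ∈ l, f a = g a) :
    l.flatMap f = l.flatMap g := by
  rw [List.flatMap_def, List.flatMap_def]
  congr 1
  exact List.map_congr_left h

theorem pr_x (i j k a : ℕ) (ha : a < 4) :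
    pr i j k (3 * a) = if a = i then [0] else if a = j then [3] else [] := by
  unfold pr
  rw [if_pos (by omega), if_pos (by omega)]
  by_cases h1 : a = i
  · rw [if_pos (by omega), if_pos h1]
  · rw [if_neg (by omega), if_neg h1]
    by_cases h2 : a = j
    · rw [if_pos (by omega), if_pos h2]
    · rw [if_neg (by omega), if_neg h2]

theorem pr_cl {m : ℕ} {c : List ℕ} (hc : Can m c) (i j : ℕ) {k k' a : ℕ} (hk' : k' < 3)
    (ha : a ∈ c) : pr i j k (cl k' a) = if k' = k then [a] else [] := by
  rcases hc.lo a ha with ⟨d, hd, rfl⟩ | ⟨h1, h2, h3⟩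
  · have e : cl k' (3 * d + 1) = 3 * (3 * d + k') + 1 := by
      unfold cl
      rw [if_pos (by omega)]
      have : (3 * d + 1) / 3 = d := by omega
      rw [this]
    rw [e]
    unfold pr
    rw [if_neg (by omega), if_pos (by omega)]
    have e1 : (3 * (3 * d + k') + 1) / 3 = 3 * d + k' := by omega
    rw [e1]
    have e2 : (3 * d + k') % 3 = k' := by omega
    have e3 : (3 * d + k') / 3 = d := by omega
    rw [e2, e3]
  · obtain ⟨b, rfl⟩ : ∃ b, a = 3 * (b + 2) := ⟨a / 3 - 2, by omega⟩
    have e : cl k' (3 * (b + 2)) = 3 * (3 * b + k' + 4) := by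
      unfold cl
      rw [if_neg (by omega)]
      have : (3 * (b + 2)) / 3 = b + 2 := by omega
      rw [this]
      congr 1
      omega
    rw [e]
    unfold pr
    rw [if_pos (by omega), if_neg (by omega)]
    have e1 : (3 * (3 * b + k' + 4)) / 3 = 3 * b + k' + 4 := by omega
    rw [e1]
    have e2 : (3 * b + k' + 4 + 2) % 3 = k' := by omega
    have e3 : (3 * b + k' + 4 + 2) / 3 = b + 2 := by omega
    rw [e2, e3]

theorem cp_fm {m : ℕ} {c : List ℕ} (hc : Can m c) (i j k : ℕ) {k' : ℕ} (hk' : k' < 3) :
    (cp k' c).flatMap (pr i j k) = if k' = k then c else [] := by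
  unfold cp
  rw [List.flatMap_map, fm_congr (g := fun a => if k' = k then [a] else [])
    (fun a ha => pr_cl hc i j hk' ha)]
  by_cases h : k' = k
  · simp only [if_pos h]
    exact List.flatMap_singleton' c
  · simp only [if_neg h]
    induction c with
    | nil => rfl
    | cons a l _ => simp

theorem l4_fm {m : ℕ} {c : List ℕ} (hc : Can m c) {i j k : ℕ} (hik : i ≤ k) (hkj : k < j)
    (hj : j ≤ 3) : (L4 c).flatMap (pr i j k) = 0 :: (c ++ [3]) := by
  have h0 := cp_fm hc i j k (k' := 0) (by omega)
  have h1 := cp_fm hc i j k (k' := 1) (by omega)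
  have h2 := cp_fm hc i j k (k' := 2) (by omega)
  have p0 := pr_x i j k 0 (by omega)
  have p1 := pr_x i j k 1 (by omega)
  have p2 := pr_x i j k 2 (by omega)
  have p3 := pr_x i j k 3 (by omega)
  unfold L4
  rw [List.flatMap_cons, List.flatMap_append, List.flatMap_cons, List.flatMap_append,
    List.flatMap_cons, List.flatMap_append, List.flatMap_singleton, h0, h1, h2]
  simp only [Nat.mul_zero, Nat.mul_one, Nat.reduceMul] at p0 p1 p2 p3
  rw [p0, p1, p2, p3]
  interval_cases j <;> interval_cases k <;> interval_cases i <;> simp

theorem z3_fm (i j : ℕ) {k r : ℕ} (hk : k < 3) :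
    (Z3 r).flatMap (pr i j k) = [3 * (r - 2) + 1] := by
  have key : ∀ t < 3, pr i j k (3 * (3 * (r - 2) + t) + 1) =
      if t = k then [3 * (r - 2) + 1] else [] := by
    intro t ht
    unfold pr
    rw [if_neg (by omega), if_pos (by omega)]
    have e1 : (3 * (3 * (r - 2) + t) + 1) / 3 = 3 * (r - 2) + t := by omega
    have e2 : (3 * (r - 2) + t) % 3 = t := by omega
    have e3 : (3 * (r - 2) + t) / 3 = r - 2 := by omega
    rw [e1, e2, e3]
  have k0 : pr i j k (3 * (3 * (r - 2)) + 1) = if 0 = k then [3 * (r - 2) + 1] else [] :=
    key 0 (by omega)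
  have k1 := key 1 (by omega)
  have k2 := key 2 (by omega)
  unfold Z3
  rw [List.flatMap_cons, List.flatMap_cons, List.flatMap_cons, List.flatMap_nil, k0, k1, k2]
  interval_cases k <;> simp

theorem count_bw_two {R : List ℕ} (B : ℕ → List ℕ) (hR : R.Nodup) {r r' a : ℕ} (h : r ∈ R)
    (h' : r' ∈ R) (hne : r ≠ r') : (B r).count a + (B r').count a ≤ (Bw R B).count a := by
  have e : (Bw R B).count a = (R.map (fun t => (B t ++ [3 * t + 2]).count a)).sum := by
    unfold Bw
    rw [List.count_flatMap]
    rfl
  rw [e]
  have h1 : ∀ t, (B t).count a ≤ (B t ++ [3 * t + 2]).count a := by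
    intro t
    rw [List.count_append]
    omega
  clear e
  induction R with
  | nil => exact absurd h List.not_mem_nil
  | cons q R ih =>
    rw [List.map_cons, List.sum_cons]
    have hR' := List.nodup_cons.1 hR
    have hs : ∀ t ∈ R, (B t).count a ≤ (R.map (fun t => (B t ++ [3 * t + 2]).count a)).sum := by
      intro t ht
      exact (h1 t).trans (List.single_le_sum (fun x _ => Nat.zero_le x) _
        (List.mem_map.2 ⟨t, ht, rfl⟩))
    rcases List.mem_cons.1 h with e1 | g
    · rcases List.mem_cons.1 h' with e2 | g'
      · exact absurd (e1.trans e2.symm) hne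
      · rw [e1]
        exact Nat.add_le_add (h1 _) (hs _ g')
    · rcases List.mem_cons.1 h' with e2 | g'
      · rw [Nat.add_comm, e2]
        exact Nat.add_le_add (h1 _) (hs _ g)
      · exact (ih hR'.2 g g').trans (Nat.le_add_left _ _)

theorem fpr : FprStmt := by
  intro m R c s hc hR hs
  have hnd : R.Nodup := hR.nodup_iff.2 List.nodup_range
  have hs4 : ∀ a ∈ s, a < 4 := by
    intro a ha
    have := hs.mem_iff.1 ha
    simp only [List.mem_cons, List.not_mem_nil, or_false] at this
    omega
  have hmem : ∀ r, r ∈ R ↔ r < m + 2 := by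
    intro r
    rw [hR.mem_iff, List.mem_range]
  constructor
  · intro i k j hik hkj hj
    unfold Fq Ex Eg
    rw [bw_flatMap]
    refine bw_congr fun r hr => ?_
    by_cases h0 : r = 0
    · simp only [if_pos h0]
      rw [List.flatMap_map]
      unfold Xs
      exact fm_congr fun a ha => pr_x i j k a (hs4 a ha)
    · by_cases h1 : r = 1
      · simp only [if_neg h0, if_pos h1]
        exact l4_fm hc hik hkj hj
      · simp only [if_neg h0, if_neg h1]
        exact z3_fm i j (by omega)
  · intro a ha h2
    set B : ℕ → List ℕ := fun r => if r = 0 then s.map (fun i => 3 * i) else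
      if r = 1 then L4 c else Z3 r with hB
    have hF : Fq R s c = Bw R B := rfl
    have h0R : 0 ∈ R := (hmem 0).2 (by omega)
    have h1R : 1 ∈ R := (hmem 1).2 (by omega)
    have B0 : B 0 = s.map (fun i => 3 * i) := rfl
    have B1 : B 1 = L4 c := rfl
    have Br : ∀ r, r ≠ 0 → r ≠ 1 → B r = Z3 r := by
      intro r h0 h1
      simp only [hB, if_neg h0, if_neg h1]
    have two : ∀ r r', r ∈ R → r' ∈ R → r ≠ r' → a ∈ B r → a ∈ B r' →
        2 ≤ (Fq R s c).count a := by
      intro r r' hr hr' hne h1 h2
      have h3 := count_bw_two B hnd (a := a) hr hr' hne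
      have h4 := List.count_pos_iff.2 h1
      have h5 := List.count_pos_iff.2 h2
      rw [hF]
      omega
    have hx1 : ∀ i < 4, 3 * i ∈ L4 c := by
      intro i hi
      unfold L4
      interval_cases i <;> simp
    have hx0 : ∀ i < 4, 3 * i ∈ B 0 := by
      intro i hi
      rw [B0]
      refine List.mem_map.2 ⟨i, hs.mem_iff.2 ?_, rfl⟩
      interval_cases i <;> simp
    rw [hF] at ha
    unfold Bw at ha
    obtain ⟨r, hr, har⟩ := List.mem_flatMap.1 ha
    have har' : a ∈ B r := by
      rcases List.mem_append.1 har with h | h
      · exact h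
      · rw [List.mem_singleton] at h
        omega
    by_cases hr0 : r = 0
    · subst hr0
      have h3 := har'
      rw [B0] at h3
      obtain ⟨i, hi, rfl⟩ := List.mem_map.1 h3
      exact two 0 1 h0R h1R (by omega) har' (by rw [B1]; exact hx1 i (hs4 i hi))
    by_cases hr1 : r = 1
    · subst hr1
      have h3 := har'
      rw [B1] at h3
      have hcp : ∀ k < 3, a ∈ cp k c → 2 ≤ (Fq R s c).count a := by
        intro k hk hak
        unfold cp at hak
        obtain ⟨u, hu, rfl⟩ := List.mem_map.1 hak
        rcases hc.lo u hu with ⟨d, hd, rfl⟩ | ⟨h4, h5, h6⟩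
        · refine two 1 (d + 2) h1R ((hmem _).2 (by omega)) (by omega) har' ?_
          rw [Br (d + 2) (by omega) (by omega)]
          have e : cl k (3 * d + 1) = 3 * (3 * d + k) + 1 := by
            unfold cl
            rw [if_pos (by omega)]
            have : (3 * d + 1) / 3 = d := by omega
            rw [this]
          rw [e]
          unfold Z3
          have e2 : d + 2 - 2 = d := by omega
          rw [e2]
          interval_cases k <;> simp
        · have h7 : 2 ≤ (cp k c).count (cl k u) := by
            unfold cp
            exact h6.trans (List.count_le_count_map ..)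
          have h8 : (cp k c).count (cl k u) ≤ (L4 c).count (cl k u) := by
            refine List.Sublist.count_le _ ?_
            unfold L4
            interval_cases k
            · exact (List.sublist_append_left _ _).trans (List.sublist_cons_self _ _)
            · refine List.Sublist.trans ?_ (List.sublist_cons_self _ _)
              refine List.Sublist.trans ?_ (List.sublist_append_right _ _)
              refine List.Sublist.trans ?_ (List.sublist_cons_self _ _)
              exact List.sublist_append_left _ _
            · refine List.Sublist.trans ?_ (List.sublist_cons_self _ _)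
              refine List.Sublist.trans ?_ (List.sublist_append_right _ _)
              refine List.Sublist.trans ?_ (List.sublist_cons_self _ _)
              refine List.Sublist.trans ?_ (List.sublist_append_right _ _)
              refine List.Sublist.trans ?_ (List.sublist_cons_self _ _)
              exact List.sublist_append_left _ _
          have h9 := count_bw_two B hnd (a := cl k u) h0R h1R (by omega)
          rw [B1] at h9
          rw [hF]
          omega
      unfold L4 at h3
      simp only [List.mem_cons, List.mem_append, List.not_mem_nil, or_false] at h3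
      rcases h3 with h | h | h | h | h | h | h
      · subst h
        exact two 0 1 h0R h1R (by omega) (hx0 0 (by omega)) har'
      · exact hcp 0 (by omega) h
      · subst h
        exact two 0 1 h0R h1R (by omega) (hx0 1 (by omega)) har'
      · exact hcp 1 (by omega) h
      · subst h
        exact two 0 1 h0R h1R (by omega) (hx0 2 (by omega)) har'
      · exact hcp 2 (by omega) h
      · subst h
        exact two 0 1 h0R h1R (by omega) (hx0 3 (by omega)) har'
    · have hrm := (hmem r).1 hr
      have h3 := har'
      rw [Br r hr0 hr1] at h3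
      have hlight : 3 * (r - 2) + 1 ∈ c := by
        have := hc.li (r - 2) (by omega)
        exact List.count_pos_iff.1 (by omega)
      have hcl : ∀ t < 3, cl t (3 * (r - 2) + 1) = 3 * (3 * (r - 2) + t) + 1 := by
        intro t _
        unfold cl
        rw [if_pos (by omega)]
        have : (3 * (r - 2) + 1) / 3 = r - 2 := by omega
        rw [this]
      have hin : ∀ t < 3, 3 * (3 * (r - 2) + t) + 1 ∈ cp t c := by
        intro t ht
        unfold cp
        exact List.mem_map.2 ⟨_, hlight, hcl t ht⟩
      refine two r 1 hr h1R hr1 har' ?_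
      rw [B1]
      unfold Z3 at h3
      simp only [List.mem_cons, List.not_mem_nil, or_false] at h3
      unfold L4
      simp only [List.mem_cons, List.mem_append]
      rcases h3 with h | h | h
      · have : 3 * (3 * (r - 2)) + 1 ∈ cp 0 c := hin 0 (by omega)
        rw [← h] at this
        exact Or.inr (Or.inl this)
      · have := hin 1 (by omega)
        rw [← h] at this
        exact Or.inr (Or.inr (Or.inr (Or.inl this)))
      · have := hin 2 (by omega)
        rw [← h] at this
        exact Or.inr (Or.inr (Or.inr (Or.inr (Or.inr (Or.inl this)))))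

end Pool.Agent.MWE.H89
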